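import Mathlib

/-!
# Every difference between the fully active and the usual cop number is attained

For all `c ≥ 2` and `k ≤ c` there is a connected bipartite graph `G` with `cop(G) = c` and
`acop(G) = c + k`.

The base graph has the points of the affine plane over `ZMod p` (`p ≥ c` prime), the lines of `c`
parallel classes, and a hub for each of these classes, adjacent to all lines of the class.  We
replace the vertices by independent sets of twins.  The usual cop number of all these graphs is `c`.
The fully active cop number is at most `c` if there are no twins, at least `2 c` if there are `2 c`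
copies of each vertex, and it grows by at most one if one vertex is added.
-/

set_option autoImplicit false

namespace Pool.Agent.Results.MP_671a46_co.AllGaps

open Function

section Game

/-- `M x y` means that a player may go from `x` to `y`.  The cops are at `c` and have to move, the
robber is at `r`.  The cops can force a capture in finitely many rounds: they have a joint move to `d`
such that they capture the robber by this move, or else every move of the robber leads to a vertex with
a cop or to a position which is won for the cops. -/
inductive Wins {V : Type} (M : V → V → Prop) {k : ℕ} : (Fin k → V) → V → Prop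
  | step (c : Fin k → V) (r : V) (d : Fin k → V) (hd : ∀ i, M (c i) (d i))
      (h : ∀ w, (∀ i, d i ≠ r) → M r w → (∀ i, d i ≠ w) → Wins M d w) : Wins M c r

/-- `k` cops have a winning strategy in the game in which both sides move according to `M`. -/
def CopsWin {V : Type} (M : V → V → Prop) (k : ℕ) : Prop :=
  ∃ c : Fin k → V, ∀ r : V, (∀ i, c i ≠ r) → Wins M c r

/-- The moves of the usual game: stay put or go to an adjacent vertex. -/
def Passive {V : Type} (G : SimpleGraph V) (x y : V) : Prop := y = x ∨ G.Adj x y

/-- The moves of the fully active game: go to an adjacent vertex. -/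
def Active {V : Type} (G : SimpleGraph V) (x y : V) : Prop := G.Adj x y

/-- The cop number `cop(G)`. -/
noncomputable def cop {V : Type} (G : SimpleGraph V) : ℕ := sInf {k | CopsWin (Passive G) k}

/-- The fully active cop number `acop(G)`. -/
noncomputable def acop {V : Type} (G : SimpleGraph V) : ℕ := sInf {k | CopsWin (Active G) k}

lemma Wins.capture {V : Type} {M : V → V → Prop} {k : ℕ} {c : Fin k → V} {r : V} (d : Fin k → V)
    (hd : ∀ i, M (c i) (d i)) (i : Fin k) (hi : d i = r) : Wins M c r :=
  Wins.step c r d hd fun _ h => absurd hi (h i)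

lemma copsWin_nonempty {V : Type} [Fintype V] (M : V → V → Prop) : ∃ k, CopsWin M k :=
  ⟨Fintype.card V, (Fintype.equivFin V).symm, fun r hr => absurd (by simp)
    (hr (Fintype.equivFin V r))⟩

end Game

section AddVertex

variable {V : Type} (G : SimpleGraph V)

/-- If `v` is added to the induced subgraph on `S`, then one more cop is enough in the fully active
game: she moves to and fro between `v` and a neighbour `u` of `v`. -/
lemma copsWin_insert (S : Set V) (v u : V) (hu : u ∈ S) (huv : G.Adj u v)
    (hS : ∀ x ∈ S, ∃ y ∈ S, G.Adj x y) (k : ℕ)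
    (h : CopsWin (Active (G.induce S)) k) : CopsWin (Active (G.induce (insert v S))) (k + 1) := by
  classical
  set S' : Set V := insert v S with hS'
  let ι : S → S' := fun x => ⟨x.1, Or.inr x.2⟩
  let v' : S' := ⟨v, Or.inl rfl⟩
  let u' : S' := ⟨u, Or.inr hu⟩
  have hnb : ∀ x : S', ∃ y : S', (G.induce S').Adj x y := by
    rintro ⟨x, rfl | hx⟩
    · exact ⟨u', huv.symm⟩
    · obtain ⟨y, hy, hxy⟩ := hS x hx
      exact ⟨⟨y, Or.inr hy⟩, hxy⟩
  -- the guard catches the robber at `v`
  have hcatch : ∀ d : Fin k → S', Wins (Active (G.induce S')) (Fin.cons u' d) v' := by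
    intro d
    choose nb hn using hnb
    refine Wins.capture (Fin.cons v' fun i => nb (d i)) ?_ 0 rfl
    intro i
    refine Fin.cases ?_ (fun j => ?_) i
    · exact huv
    · exact hn (d j)
  have key : ∀ (c : Fin k → S) (r : S), Wins (Active (G.induce S)) c r →
      ∀ g : S', (g = v' ∨ g = u') →
        Wins (Active (G.induce S')) (Fin.cons g fun i => ι (c i)) (ι r) := by
    intro c r hw
    induction hw with
    | step c r d hd h ih =>
      intro g hg
      obtain ⟨g', hgg, hg'⟩ : ∃ g' : S', (G.induce S').Adj g g' ∧ (g' = v' ∨ g' = u') := by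
        rcases hg with rfl | rfl
        · exact ⟨u', huv.symm, Or.inr rfl⟩
        · exact ⟨v', huv, Or.inl rfl⟩
      refine Wins.step _ _ (Fin.cons g' fun i => ι (d i)) ?_ ?_
      · intro i
        refine Fin.cases ?_ (fun j => ?_) i
        · exact hgg
        · exact hd j
      · intro w hr hrw hw
        rcases w with ⟨w, rfl | hwS⟩
        · rcases hg' with rfl | rfl
          · exact absurd rfl (hw 0)
          · exact hcatch _
        · refine ih ⟨w, hwS⟩ (fun i hi => hr i.succ ?_) hrw (fun i hi => hw i.succ ?_) g' hg'
          · rw [Fin.cons_succ, hi]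
          · rw [Fin.cons_succ, hi]
  obtain ⟨c, hc⟩ := h
  refine ⟨Fin.cons u' fun i => ι (c i), fun r hr => ?_⟩
  rcases r with ⟨r, rfl | hrS⟩
  · exact hcatch _
  · refine key c ⟨r, hrS⟩ (hc _ fun i hi => hr i.succ ?_) u' (Or.inr rfl)
    rw [Fin.cons_succ, hi]

end AddVertex

section Base

variable (p c : ℕ)

/-- The vertices of the base graph: the points `(x, y)` of the plane over `ZMod p`, the lines
`y = s x + b` (with `s < c`), and a hub for each class of parallel lines. -/
inductive Base : Type
  | pt (x y : ZMod p) : Base
  | ln (s : Fin c) (b : ZMod p) : Base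
  | hub (s : Fin c) : Base

variable {p c}

/-- The adjacency of the base graph: a point is adjacent to the lines through it, and a hub is
adjacent to the lines of its class. -/
def BAdj : Base p c → Base p c → Prop
  | .pt x y, .ln s b => y = (s : ℕ) * x + b
  | .ln s b, .pt x y => y = (s : ℕ) * x + b
  | .hub s, .ln s' _ => s = s'
  | .ln s' _, .hub s => s = s'
  | _, _ => False

/-- The side of a vertex: `true` for the lines. -/
def side : Base p c → Bool
  | .ln _ _ => true
  | _ => false

/-- The vertex is not a hub. -/
def NotHub : Base p c → Prop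
  | .hub _ => False
  | _ => True

lemma BAdj.symm {a b : Base p c} (h : BAdj a b) : BAdj b a := by
  cases a <;> cases b <;> simp_all [BAdj]

lemma BAdj.side {a b : Base p c} (h : BAdj a b) : side b = !side a := by
  cases a <;> cases b <;> simp_all [BAdj, AllGaps.side]

lemma not_badj_self (a : Base p c) : ¬ BAdj a a := by
  cases a <;> simp [BAdj]

lemma slope_inj (hc : c ≤ p) {s s' : Fin c} (h : ((s : ℕ) : ZMod p) = ((s' : ℕ) : ZMod p)) :
    s = s' := by
  have hs := s.2
  have hs' := s'.2
  rw [ZMod.natCast_eq_natCast_iff', Nat.mod_eq_of_lt (by omega), Nat.mod_eq_of_lt (by omega)] at h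
  exact Fin.ext h

/-- Two different vertices on the same side have at most one common neighbour which is not a hub. -/
lemma common_unique [Fact p.Prime] (hc : c ≤ p) {a z u v : Base p c} (haz : a ≠ z)
    (ha : NotHub a) (hu : NotHub u) (hv : NotHub v)
    (hau : BAdj a u) (hzu : BAdj z u) (hav : BAdj a v) (hzv : BAdj z v) : u = v := by
  cases a with
  | hub s => exact absurd ha (by simp [NotHub])
  | pt x y =>
    cases u with
    | pt _ _ => exact absurd hau (by simp [BAdj])
    | hub _ => exact absurd hau (by simp [BAdj])
    | ln s b =>
      cases v with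
      | pt _ _ => exact absurd hav (by simp [BAdj])
      | hub _ => exact absurd hav (by simp [BAdj])
      | ln s' b' =>
        simp only [BAdj] at hau hav
        cases z with
        | hub t =>
          simp only [BAdj] at hzu hzv
          subst hzu hzv
          rw [hau] at hav
          rw [add_left_cancel hav]
        | ln _ _ => exact absurd hzu (by simp [BAdj])
        | pt x' y' =>
          simp only [BAdj] at hzu hzv
          have hxx : x ≠ x' := by
            rintro rfl
            exact haz (by rw [hau, hzu])
          have h1 : (((s : ℕ) : ZMod p) - ((s' : ℕ) : ZMod p)) * (x - x') = 0 := by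
            linear_combination hav - hau + hzu - hzv
          rcases mul_eq_zero.1 h1 with h2 | h2
          · have := slope_inj hc (sub_eq_zero.1 h2)
            subst this
            rw [hau] at hav
            rw [add_left_cancel hav]
          · exact absurd (sub_eq_zero.1 h2) hxx
  | ln s b =>
    cases u with
    | hub _ => exact absurd hu (by simp [NotHub])
    | ln _ _ => exact absurd hau (by simp [BAdj])
    | pt x y =>
      cases v with
      | hub _ => exact absurd hv (by simp [NotHub])
      | ln _ _ => exact absurd hav (by simp [BAdj])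
      | pt x' y' =>
        cases z with
        | pt _ _ => exact absurd hzu (by simp [BAdj])
        | hub _ => exact absurd hzu (by simp [BAdj])
        | ln s' b' =>
          simp only [BAdj] at hau hav hzu hzv
          have hss : ((s : ℕ) : ZMod p) - ((s' : ℕ) : ZMod p) ≠ 0 := by
            intro h
            have := slope_inj hc (sub_eq_zero.1 h)
            subst this
            apply haz
            rw [hau] at hzu
            rw [add_left_cancel hzu]
          have h1 : (((s : ℕ) : ZMod p) - ((s' : ℕ) : ZMod p)) * (x - x') = 0 := by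
            linear_combination hav - hau + hzu - hzv
          rcases mul_eq_zero.1 h1 with h2 | h2
          · exact absurd h2 hss
          · have hx := sub_eq_zero.1 h2
            subst hx
            rw [hau, hav]

/-- A vertex which is not a hub has `c` different neighbours which are not hubs. -/
lemma exists_neighbours (hc : c ≤ p) [Fact p.Prime] (a : Base p c) (ha : NotHub a) :
    ∃ f : Fin c → Base p c, Injective f ∧ ∀ i, BAdj a (f i) ∧ NotHub (f i) := by
  cases a with
  | hub s => exact absurd ha (by simp [NotHub])
  | pt x y =>
    refine ⟨fun s => .ln s (y - (s : ℕ) * x), ?_, ?_⟩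
    · intro s s' h
      simp only [Base.ln.injEq] at h
      exact h.1
    · intro s
      refine ⟨?_, by simp [NotHub]⟩
      simp only [BAdj]
      ring
  | ln s b =>
    refine ⟨fun i => .pt ((i : ℕ) : ZMod p) ((s : ℕ) * ((i : ℕ) : ZMod p) + b), ?_, ?_⟩
    · intro i i' h
      simp only [Base.pt.injEq] at h
      exact slope_inj hc h.1
    · intro i
      exact ⟨rfl, by simp [NotHub]⟩

/-- The line of the class `s` through a point. -/
def lineThrough (s : Fin c) (x y : ZMod p) : Base p c := .ln s (y - (s : ℕ) * x)

lemma badj_lineThrough (s : Fin c) (x y : ZMod p) : BAdj (.pt x y) (lineThrough s x y) := by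
  simp only [BAdj, lineThrough]
  ring

lemma eq_lineThrough {x y : ZMod p} {u : Base p c} (h : BAdj (.pt x y) u) :
    ∃ s, u = lineThrough s x y := by
  cases u with
  | pt _ _ => exact absurd h (by simp [BAdj])
  | hub _ => exact absurd h (by simp [BAdj])
  | ln s b =>
    simp only [BAdj] at h
    refine ⟨s, ?_⟩
    simp only [lineThrough, h]
    congr 1
    ring

end Base

section BlowUp

variable {p c : ℕ} {W : Type} (G : SimpleGraph W) (π : W → Base p c)

/-- `G` is obtained from the base graph by replacing vertices by twins; `π` is the projection. -/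
def IsBlowUp : Prop := (∀ a b, G.Adj a b ↔ BAdj (π a) (π b)) ∧ Surjective π

variable {G π}

lemma IsBlowUp.symm' (hG : IsBlowUp G π) {a b : W} (h : BAdj (π a) (π b)) : G.Adj b a :=
  (hG.1 b a).2 h.symm

/-- The main counting step: if there are fewer than `c` vertices `z i` on the side of `a`, all
different from `a`, then `a` has a neighbour `u`, not a hub, which is not adjacent to any of them. -/
lemma exists_free [Fact p.Prime] (hc : c ≤ p) {ι : Type} (I : Finset ι) (hI : I.card < c)
    (a : Base p c) (ha : NotHub a) (z : ι → Base p c) (hz : ∀ i ∈ I, z i ≠ a) :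
    ∃ u : Base p c, BAdj a u ∧ NotHub u ∧ ∀ i ∈ I, ¬ BAdj (z i) u := by
  classical
  obtain ⟨f, hf, hfn⟩ := exists_neighbours hc a ha
  by_contra hcon
  push Not at hcon
  have h1 : ∀ j : Fin c, ∃ i ∈ I, BAdj (z i) (f j) := fun j => hcon (f j) (hfn j).1 (hfn j).2
  choose g hgI hg using h1
  have hginj : Injective g := by
    intro j j' hjj
    apply hf
    refine common_unique hc (a := a) (z := z (g j)) (fun h => hz (g j) (hgI j) h.symm) ha
      (hfn j).2 (hfn j').2 (hfn j).1 (hg j) (hfn j').1 ?_
    rw [hjj]
    exact hg j'
  have h2 : Fintype.card (Fin c) ≤ I.card := by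
    rw [← Finset.card_univ]
    exact Finset.card_le_card_of_injOn g (fun j _ => hgI j) hginj.injOn
  rw [Fintype.card_fin] at h2
  omega

/-- The passive version: if there are fewer than `c` vertices `z i` different from `a`, then `a` has
a neighbour `u`, not a hub, which is different from all of them and not adjacent to any of them. -/
lemma exists_free' [Fact p.Prime] (hc : c ≤ p) {k : ℕ} (hk : k < c)
    (a : Base p c) (ha : NotHub a) (z : Fin k → Base p c) (hz : ∀ i, z i ≠ a) :
    ∃ u : Base p c, BAdj a u ∧ NotHub u ∧ ∀ i, ¬ BAdj (z i) u ∧ z i ≠ u := by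
  classical
  obtain ⟨f, hf, hfn⟩ := exists_neighbours hc a ha
  by_contra hcon
  push Not at hcon
  have h1 : ∀ j : Fin c, ∃ i : Fin k, BAdj (z i) (f j) ∨ z i = f j := by
    intro j
    obtain ⟨i, hi⟩ := hcon (f j) (hfn j).1 (hfn j).2
    refine ⟨i, ?_⟩
    by_cases h : BAdj (z i) (f j)
    · exact Or.inl h
    · exact Or.inr (hi h)
  choose g hg using h1
  have hside : ∀ j, side (f j) = !side a := fun j => (hfn j).1.side
  have hginj : Injective g := by
    intro j j' hjj
    apply hf
    have h3 := hg j'
    rw [← hjj] at h3
    rcases hg j with h2 | h2 <;> rcases h3 with h3 | h3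
    · exact common_unique hc (a := a) (z := z (g j)) (fun h => hz (g j) h.symm) ha
        (hfn j).2 (hfn j').2 (hfn j).1 h2 (hfn j').1 h3
    · exfalso
      have h4 := h2.side
      rw [h3, hside j, hside j'] at h4
      simp at h4
    · exfalso
      have h4 := h3.side
      rw [h2, hside j, hside j'] at h4
      simp at h4
    · exact h2.symm.trans h3
  have h2 := Fintype.card_le_of_injective g hginj
  rw [Fintype.card_fin, Fintype.card_fin] at h2
  omega

/-- Fewer than `c` passive cops do not catch the robber. -/
lemma not_copsWin_passive [Fact p.Prime] (hc : c ≤ p) (hG : IsBlowUp G π) {k : ℕ} (hk : k < c) :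
    ¬ CopsWin (Passive G) k := by
  have key : ∀ (x : Fin k → W) (r : W), Wins (Passive G) x r → NotHub (π r) →
      (∀ i, ¬ BAdj (π (x i)) (π r) ∧ π (x i) ≠ π r) → False := by
    intro x r hw
    induction hw with
    | step x r d hd h ih =>
      intro hr hx
      have hd1 : ∀ i, π (d i) ≠ π r := by
        intro i hi
        rcases hd i with h1 | h1
        · rw [h1] at hi
          exact (hx i).2 hi
        · rw [hG.1, hi] at h1
          exact (hx i).1 h1
      obtain ⟨u, hau, hu, hfree⟩ := exists_free' hc hk (π r) hr (fun i => π (d i)) hd1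
      obtain ⟨w, rfl⟩ := hG.2 u
      exact ih w (fun i hi => hd1 i (by rw [hi])) (Or.inr ((hG.1 _ _).2 hau))
        (fun i hi => (hfree i).2 (by rw [hi])) hu (fun i => hfree i)
  rintro ⟨x, hx⟩
  -- the start of the robber: a point with first coordinate `0`
  obtain ⟨y, hy⟩ : ∃ y : ZMod p, ∀ i, ¬ BAdj (π (x i)) (.pt 0 y) ∧ π (x i) ≠ .pt 0 y := by
    classical
    by_contra hcon
    push Not at hcon
    have h1 : ∀ y : ZMod p, ∃ i : Fin k, BAdj (π (x i)) (.pt 0 y) ∨ π (x i) = .pt 0 y := by
      intro y
      obtain ⟨i, hi⟩ := hcon y
      refine ⟨i, ?_⟩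
      by_cases h : BAdj (π (x i)) (.pt 0 y)
      · exact Or.inl h
      · exact Or.inr (hi h)
    choose g hg using h1
    have hginj : Injective g := by
      intro y y' hyy
      have h3 := hg y'
      rw [← hyy] at h3
      have h2 := hg y
      generalize π (x (g y)) = z at h2 h3
      cases z with
      | pt _ _ =>
        rcases h2 with h2 | h2
        · exact absurd h2 (by simp [BAdj])
        rcases h3 with h3 | h3
        · exact absurd h3 (by simp [BAdj])
        rw [h2] at h3
        simp only [Base.pt.injEq, true_and] at h3
        exact h3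
      | hub _ =>
        rcases h2 with h2 | h2
        · exact absurd h2 (by simp [BAdj])
        · exact absurd h2 (by simp)
      | ln _ _ =>
        rcases h2 with h2 | h2
        · rcases h3 with h3 | h3
          · simp only [BAdj] at h2 h3
            rw [h2, h3]
          · exact absurd h3 (by simp)
        · exact absurd h2 (by simp)
    have h2 := Fintype.card_le_of_injective g hginj
    rw [ZMod.card, Fintype.card_fin] at h2
    omega
  obtain ⟨r, hr⟩ := hG.2 (.pt 0 y)
  refine key x r (hx r fun i hi => (hy i).2 (by rw [hi, hr])) ?_ ?_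
  · rw [hr]
    simp [NotHub]
  · intro i
    rw [hr]
    exact hy i

/-- Fewer than `2 c` active cops do not catch the robber if every vertex has at least `2 c`
copies. -/
lemma not_copsWin_active [Fact p.Prime] (hc : c ≤ p) (hG : IsBlowUp G π)
    (hfib : ∀ a : Base p c, ∃ f : Fin (2 * c) → W, Injective f ∧ ∀ i, π (f i) = a)
    {k : ℕ} (hk : k < 2 * c) : ¬ CopsWin (Active G) k := by
  classical
  -- a copy without cops
  have hcopy : ∀ (x : Fin k → W) (a : Base p c), ∃ w, π w = a ∧ ∀ i, x i ≠ w := by
    intro x a
    obtain ⟨f, hf, hfa⟩ := hfib a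
    by_contra hcon
    push Not at hcon
    have h1 : ∀ j, ∃ i, x i = f j := fun j => hcon (f j) (hfa j)
    choose g hg using h1
    have hginj : Injective g := by
      intro j j' hjj
      apply hf
      rw [← hg j, ← hg j', hjj]
    have h2 := Fintype.card_le_of_injective g hginj
    rw [Fintype.card_fin, Fintype.card_fin] at h2
    omega
  have key : ∀ (x : Fin k → W) (r : W), Wins (Active G) x r → NotHub (π r) →
      (Finset.univ.filter fun i => side (π (x i)) ≠ side (π r)).card < c →
      (∀ i, ¬ BAdj (π (x i)) (π r)) → False := by
    intro x r hw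
    induction hw with
    | step x r d hd h ih =>
      intro hr hcard hx
      have hdb : ∀ i, BAdj (π (x i)) (π (d i)) := fun i => (hG.1 _ _).1 (hd i)
      have hd1 : ∀ i, π (d i) ≠ π r := by
        intro i hi
        apply hx i
        rw [← hi]
        exact hdb i
      obtain ⟨u, hau, hu, hfree⟩ := exists_free hc
        (Finset.univ.filter fun i => side (π (x i)) ≠ side (π r)) hcard (π r) hr
        (fun i => π (d i)) (fun i _ => hd1 i)
      obtain ⟨w, rfl, hw⟩ := hcopy d u
      have hsw : side (π w) = !side (π r) := hau.side
      have hsd : ∀ i, side (π (d i)) = !side (π (x i)) := fun i => (hdb i).side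
      refine ih w (fun i hi => hd1 i (by rw [hi])) ((hG.1 _ _).2 hau) hw hu ?_ ?_
      · refine lt_of_le_of_lt (Finset.card_le_card ?_) hcard
        intro i hi
        rw [Finset.mem_filter] at hi ⊢
        refine ⟨Finset.mem_univ i, ?_⟩
        have h2 := hi.2
        rw [hsw, hsd i] at h2
        intro h3
        rw [h3] at h2
        exact h2 rfl
      · intro i hi
        by_cases hgood : side (π (x i)) = side (π r)
        · have h2 := hi.side
          rw [hsw, hsd i, hgood] at h2
          simp at h2
        · exact hfree i (Finset.mem_filter.2 ⟨Finset.mem_univ i, hgood⟩) hi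
  rintro ⟨x, hx⟩
  -- the start of the robber
  obtain ⟨a, ha, hcard, hadj⟩ : ∃ a : Base p c, NotHub a ∧
      (Finset.univ.filter fun i => side (π (x i)) ≠ side a).card < c ∧
      ∀ i, ¬ BAdj (π (x i)) a := by
    by_cases hB : (Finset.univ.filter fun i => side (π (x i)) = true).card < c
    · -- few cops on lines: start at a point
      obtain ⟨y, hy⟩ : ∃ y : ZMod p, ∀ i, ¬ BAdj (π (x i)) (.pt 0 y) := by
        by_contra hcon
        push Not at hcon
        choose g hg using hcon
        have hginj : Injective g := by
          intro y y' hyy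
          have h2 := hg y
          have h3 := hg y'
          rw [← hyy] at h3
          generalize π (x (g y)) = z at h2 h3
          cases z with
          | pt _ _ => exact absurd h2 (by simp [BAdj])
          | hub _ => exact absurd h2 (by simp [BAdj])
          | ln _ _ =>
            simp only [BAdj] at h2 h3
            rw [h2, h3]
        have hgI : ∀ y, g y ∈ Finset.univ.filter fun i => side (π (x i)) = true := by
          intro y
          rw [Finset.mem_filter]
          refine ⟨Finset.mem_univ _, ?_⟩
          have h2 := (hg y).symm.side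
          rw [h2]
          rfl
        have h2 := Finset.card_le_card_of_injOn g
          (fun j (_ : j ∈ (Finset.univ : Finset (ZMod p))) => hgI j) hginj.injOn
        rw [Finset.card_univ, ZMod.card] at h2
        omega
      refine ⟨.pt 0 y, by simp [NotHub], ?_, hy⟩
      refine lt_of_le_of_lt (Finset.card_le_card ?_) hB
      intro i hi
      rw [Finset.mem_filter] at hi ⊢
      refine ⟨Finset.mem_univ i, ?_⟩
      have h2 := hi.2
      simpa [side] using h2
    · -- few cops on points and hubs: start at a line
      have hA : (Finset.univ.filter fun i => ¬ side (π (x i)) = true).card < c := by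
        have h1 := Finset.card_filter_add_card_filter_not (s := (Finset.univ : Finset (Fin k)))
          (fun i => side (π (x i)) = true)
        rw [Finset.card_univ, Fintype.card_fin] at h1
        omega
      -- a class without a cop on its hub
      obtain ⟨s, hs⟩ : ∃ s : Fin c, ∀ i, π (x i) ≠ .hub s := by
        by_contra hcon
        push Not at hcon
        choose g hg using hcon
        have hginj : Injective g := by
          intro s s' hss
          have h2 := hg s
          rw [hss, hg s'] at h2
          simpa using h2.symm
        have hgI : ∀ s, g s ∈ Finset.univ.filter fun i => ¬ side (π (x i)) = true := by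
          intro s
          rw [Finset.mem_filter]
          refine ⟨Finset.mem_univ _, ?_⟩
          rw [hg s]
          simp [side]
        have h2 := Finset.card_le_card_of_injOn g
          (fun j (_ : j ∈ (Finset.univ : Finset (Fin c))) => hgI j) hginj.injOn
        rw [Finset.card_univ, Fintype.card_fin] at h2
        omega
      obtain ⟨b, hb⟩ : ∃ b : ZMod p, ∀ i, ¬ BAdj (π (x i)) (.ln s b) := by
        by_contra hcon
        push Not at hcon
        choose g hg using hcon
        have hginj : Injective g := by
          intro b b' hbb
          have h2 := hg b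
          have h3 := hg b'
          rw [← hbb] at h3
          have hs' := hs (g b)
          generalize π (x (g b)) = z at h2 h3 hs'
          cases z with
          | ln _ _ => exact absurd h2 (by simp [BAdj])
          | hub t =>
            simp only [BAdj] at h2
            exact absurd (by rw [h2]) hs'
          | pt _ _ =>
            simp only [BAdj] at h2 h3
            rw [h2] at h3
            exact add_left_cancel h3
        have hgI : ∀ b, g b ∈ Finset.univ.filter fun i => ¬ side (π (x i)) = true := by
          intro b
          rw [Finset.mem_filter]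
          refine ⟨Finset.mem_univ _, ?_⟩
          have h2 := (hg b).symm.side
          rw [h2]
          simp [side]
        have h2 := Finset.card_le_card_of_injOn g
          (fun j (_ : j ∈ (Finset.univ : Finset (ZMod p))) => hgI j) hginj.injOn
        rw [Finset.card_univ, ZMod.card] at h2
        omega
      refine ⟨.ln s b, by simp [NotHub], ?_, hb⟩
      refine lt_of_le_of_lt (Finset.card_le_card ?_) hA
      intro i hi
      rw [Finset.mem_filter] at hi ⊢
      refine ⟨Finset.mem_univ i, ?_⟩
      have h2 := hi.2
      simpa [side] using h2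
  obtain ⟨r, rfl, hr⟩ := hcopy x a
  exact key x r (hx r hr) ha hcard hadj

/-- If a cop is on a twin of the robber's vertex and there is another cop, then the cops win. -/
lemma wins_twin (hG : IsBlowUp G π) (hconn : G.Connected) {k : ℕ} (i j : Fin k) (hij : i ≠ j)
    (r : W) : ∀ (n : ℕ) (x : Fin k → W), π (x j) = π r → G.dist (x i) r ≤ n →
      Wins (Passive G) x r := by
  classical
  intro n
  induction n with
  | zero =>
    intro x _ hn
    have h0 : x i = r := by
      have := (hconn.dist_eq_zero_iff (u := x i) (v := r)).1 (by omega)
      exact this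
    exact Wins.capture x (fun _ => Or.inl rfl) i h0
  | succ n ih =>
    intro x hj hn
    by_cases h0 : x i = r
    · exact Wins.capture x (fun _ => Or.inl rfl) i h0
    obtain ⟨q, hq⟩ := hconn.exists_walk_length_eq_dist (x i) r
    cases q with
    | nil => exact absurd rfl h0
    | @cons _ z _ hadj q' =>
      have hz : G.dist z r ≤ n := by
        have h1 := SimpleGraph.dist_le q'
        rw [SimpleGraph.Walk.length_cons] at hq
        omega
      refine Wins.step x r (update x i z) ?_ ?_
      · intro l
        by_cases hl : l = i
        · subst hl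
          rw [update_self]
          exact Or.inr hadj
        · rw [update_of_ne hl]
          exact Or.inl rfl
      · intro w _ hrw _
        have hxj : update x i z j = x j := update_of_ne hij.symm _ _
        rcases hrw with rfl | hrw
        · exact ih _ (by rw [hxj, hj]) (by rw [update_self]; exact hz)
        · refine Wins.capture (update (update x i z) j w) ?_ j (update_self _ _ _)
          intro l
          by_cases hl : l = j
          · subst hl
            rw [update_self, hxj]
            refine Or.inr ((hG.1 _ _).2 ?_)
            rw [hj]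
            exact (hG.1 _ _).1 hrw
          · rw [update_of_ne hl]
            exact Or.inl rfl

/-- `c ≥ 2` passive cops win. -/
lemma copsWin_passive (hG : IsBlowUp G π) (hconn : G.Connected) (h2 : 2 ≤ c) :
    CopsWin (Passive G) c := by
  classical
  have hhub : ∀ s : Fin c, ∃ w, π w = .hub s := fun s => hG.2 _
  choose h hh using hhub
  refine ⟨h, fun r _ => ?_⟩
  -- capture by one cop
  have hcap : ∀ (x : Fin c → W) (w : W) (i : Fin c), G.Adj (x i) w → Wins (Passive G) x w := by
    intro x w i hi
    refine Wins.capture (update x i w) ?_ i (update_self _ _ _)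
    intro l
    by_cases hl : l = i
    · subst hl
      rw [update_self]
      exact Or.inr hi
    · rw [update_of_ne hl]
      exact Or.inl rfl
  generalize ha : π r = a
  cases a with
  | ln s b =>
    refine hcap h r s ((hG.1 _ _).2 ?_)
    rw [hh, ha]
    rfl
  | hub s =>
    obtain ⟨i, hi⟩ : ∃ i : Fin c, i ≠ s := by
      have : Nontrivial (Fin c) := Fin.nontrivial_iff_two_le.2 h2
      exact exists_ne s
    exact wins_twin hG hconn i s hi r _ h (by rw [hh, ha]) le_rfl
  | pt x y =>
    let s0 : Fin c := ⟨0, by omega⟩
    let s1 : Fin c := ⟨1, by omega⟩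
    have h01 : s1 ≠ s0 := by
      intro h
      have := congrArg Fin.val h
      simp [s0, s1] at this
    obtain ⟨l, hl⟩ := hG.2 (lineThrough s0 x y)
    refine Wins.step h r (update h s0 l) ?_ ?_
    · intro i
      by_cases hi : i = s0
      · subst hi
        rw [update_self]
        refine Or.inr ((hG.1 _ _).2 ?_)
        rw [hh, hl]
        rfl
      · rw [update_of_ne hi]
        exact Or.inl rfl
    · intro w _ hrw _
      rcases hrw with rfl | hrw
      · refine hcap _ w s0 ((hG.1 _ _).2 ?_)
        rw [update_self, hl, ha]
        exact (badj_lineThrough s0 x y).symm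
      · have hrw' := (hG.1 _ _).1 hrw
        rw [ha] at hrw'
        obtain ⟨s, hs⟩ := eq_lineThrough hrw'
        by_cases hs0 : s = s0
        · refine wins_twin hG hconn s1 s0 h01 w _ _ ?_ le_rfl
          rw [update_self, hl, hs, hs0]
        · refine hcap _ w s ((hG.1 _ _).2 ?_)
          rw [update_of_ne hs0, hh, hs]
          rfl

/-- Without twins, `c` active cops win. -/
lemma copsWin_active (hG : IsBlowUp G π) (hinj : Injective π) :
    CopsWin (Active G) c := by
  classical
  have hhub : ∀ s : Fin c, ∃ w, π w = .hub s := fun s => hG.2 _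
  choose h hh using hhub
  refine ⟨h, fun r hr => ?_⟩
  generalize ha : π r = a
  cases a with
  | ln s b =>
    have hln : ∀ i : Fin c, ∃ w, π w = .ln i b := fun s => hG.2 _
    choose l hl using hln
    refine Wins.capture l ?_ s (hinj (by rw [hl, ha]))
    intro i
    refine (hG.1 _ _).2 ?_
    rw [hh, hl]
    rfl
  | hub s => exact absurd (hinj (by rw [hh, ha])) (hr s)
  | pt x y =>
    have hln : ∀ i : Fin c, ∃ w, π w = lineThrough i x y := fun s => hG.2 _
    choose l hl using hln
    refine Wins.step h r l ?_ ?_
    · intro i
      refine (hG.1 _ _).2 ?_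
      rw [hh, hl]
      rfl
    · intro w _ hrw hw
      have hrw' := (hG.1 _ _).1 hrw
      rw [ha] at hrw'
      obtain ⟨s, hs⟩ := eq_lineThrough hrw'
      exact absurd (hinj (by rw [hl, hs])) (hw s)

lemma IsBlowUp.connected (hG : IsBlowUp G π) (h2 : 2 ≤ c) : G.Connected := by
  choose σ hσ using hG.2
  let s0 : Fin c := ⟨0, by omega⟩
  have hadj : ∀ (w : W) (a : Base p c), BAdj (π w) a → G.Reachable w (σ a) := by
    intro w a h
    refine SimpleGraph.Adj.reachable ((hG.1 _ _).2 ?_)
    rw [hσ]
    exact h
  have hhub : ∀ b : ZMod p, G.Reachable (σ (.ln s0 b)) (σ (.hub s0)) := by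
    intro b
    apply hadj
    rw [hσ]
    rfl
  have hpt : ∀ (w : W) (x y : ZMod p), π w = .pt x y → G.Reachable w (σ (.hub s0)) := by
    intro w x y h
    refine (hadj w (lineThrough s0 x y) ?_).trans (hhub _)
    rw [h]
    exact badj_lineThrough s0 x y
  have hln : ∀ (w : W) (s : Fin c) (b : ZMod p), π w = .ln s b →
      G.Reachable w (σ (.hub s0)) := by
    intro w s b h
    refine (hadj w (.pt 0 b) ?_).trans (hpt _ 0 b (hσ _))
    rw [h]
    simp [BAdj]
  have hall : ∀ w : W, G.Reachable (σ (.hub s0)) w := by
    intro w
    refine SimpleGraph.Reachable.symm ?_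
    generalize ha : π w = a
    cases a with
    | pt x y => exact hpt w x y ha
    | ln s b => exact hln w s b ha
    | hub s =>
      refine (hadj w (.ln s 0) ?_).trans (hln _ s 0 (hσ _))
      rw [ha]
      rfl
  exact SimpleGraph.connected_iff_exists_forall_reachable _ |>.2 ⟨_, hall⟩

lemma IsBlowUp.colorable (hG : IsBlowUp G π) : G.Colorable 2 := by
  let C : G.Coloring Bool := SimpleGraph.Coloring.mk (fun w => side (π w)) (by
    intro a b hab
    have h := ((hG.1 _ _).1 hab).side
    intro h'
    have h'' : side (π a) = side (π b) := h'
    rw [← h''] at h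
    simp at h)
  have := C.colorable
  simpa using this

lemma IsBlowUp.cop_eq [Fact p.Prime] (hc : c ≤ p) (hG : IsBlowUp G π) (h2 : 2 ≤ c) :
    cop G = c := by
  have hwin := copsWin_passive hG (hG.connected h2) h2
  have h : CopsWin (Passive G) (cop G) := Nat.sInf_mem (⟨c, hwin⟩ : {k | CopsWin (Passive G) k}.Nonempty)
  have h1 : cop G ≤ c := Nat.sInf_le hwin
  refine le_antisymm h1 ?_
  by_contra hlt
  exact not_copsWin_passive hc hG (not_le.1 hlt) h

end BlowUp

section Final

variable (p c : ℕ)

/-- The base graph with `2 c` copies of each vertex. -/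
def big : SimpleGraph (Base p c × Fin (2 * c)) where
  Adj a b := BAdj a.1 b.1
  symm := ⟨fun _ _ h => h.symm⟩
  loopless := ⟨fun a h => not_badj_self a.1 h⟩

variable {p c}

instance [NeZero p] : Finite (Base p c) := by
  let f : Base p c → (ZMod p × ZMod p) ⊕ ((Fin c × ZMod p) ⊕ Fin c) := fun a =>
    match a with
    | .pt x y => Sum.inl (x, y)
    | .ln s b => Sum.inr (Sum.inl (s, b))
    | .hub s => Sum.inr (Sum.inr s)
  refine Finite.of_injective f ?_
  intro a b h
  cases a <;> cases b <;> simp_all [f]

/-- The vertices with second coordinate `0`. -/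
def baseSet (h2 : 2 ≤ c) : Set (Base p c × Fin (2 * c)) := {v | v.2 = ⟨0, by omega⟩}

lemma isBlowUp_induce (h2 : 2 ≤ c) (S : Set (Base p c × Fin (2 * c))) (hS : baseSet h2 ⊆ S) :
    IsBlowUp ((big p c).induce S) (fun v => v.1.1) :=
  ⟨fun _ _ => Iff.rfl, fun a => ⟨⟨(a, ⟨0, by omega⟩), hS rfl⟩, rfl⟩⟩

lemma exists_badj (h2 : 2 ≤ c) (a : Base p c) : ∃ b, BAdj a b := by
  cases a with
  | pt x y => exact ⟨_, badj_lineThrough ⟨0, by omega⟩ x y⟩
  | ln s b => exact ⟨.hub s, rfl⟩
  | hub s => exact ⟨.ln s 0, rfl⟩

lemma acop_insert [NeZero p] (h2 : 2 ≤ c) (S : Set (Base p c × Fin (2 * c)))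
    (hS : baseSet h2 ⊆ S) (v : Base p c × Fin (2 * c)) :
    acop ((big p c).induce (insert v S)) ≤ acop ((big p c).induce S) + 1 := by
  classical
  have hfin : Fintype S := Fintype.ofFinite _
  have h : CopsWin (Active ((big p c).induce S)) (acop ((big p c).induce S)) :=
    Nat.sInf_mem (copsWin_nonempty (Active ((big p c).induce S)))
  obtain ⟨b, hb⟩ := exists_badj h2 v.1
  refine Nat.sInf_le ?_
  refine copsWin_insert (big p c) S v (b, ⟨0, by omega⟩) (hS rfl) hb.symm ?_ _ h
  intro x _
  obtain ⟨b, hb⟩ := exists_badj h2 x.1
  exact ⟨(b, ⟨0, by omega⟩), hS rfl, hb⟩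

lemma exists_acop_eq [NeZero p] (h2 : 2 ≤ c) (m : ℕ)
    (hm : acop ((big p c).induce (baseSet h2)) ≤ m) (T : Finset (Base p c × Fin (2 * c))) :
    m ≤ acop ((big p c).induce (baseSet h2 ∪ T)) →
      ∃ S : Set (Base p c × Fin (2 * c)), baseSet h2 ⊆ S ∧ acop ((big p c).induce S) = m := by
  classical
  induction T using Finset.induction_on with
  | empty =>
    intro h
    rw [Finset.coe_empty, Set.union_empty] at h
    exact ⟨_, subset_rfl, le_antisymm hm h⟩
  | insert v T _ ih =>
    intro h
    by_cases h1 : m ≤ acop ((big p c).induce (baseSet h2 ∪ T))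
    · exact ih h1
    · have h3 := acop_insert h2 (baseSet h2 ∪ T) Set.subset_union_left v
      rw [Finset.coe_insert, Set.union_insert] at h
      refine ⟨insert v (baseSet h2 ∪ T), ?_, by omega⟩
      exact fun x hx => Or.inr (Or.inl hx)

end Final

/-- For all `c ≥ 2` and all `k ≤ c` there is a finite connected bipartite graph with cop number `c`
and fully active cop number `c + k`. -/
theorem result (c k : ℕ) (hc : 2 ≤ c) (hk : k ≤ c) :
    ∃ (V : Type) (_ : Fintype V) (G : SimpleGraph V), G.Connected ∧ G.Colorable 2 ∧
      cop G = c ∧ acop G = c + k := by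
  classical
  obtain ⟨p, hcp, hp⟩ := Nat.exists_infinite_primes c
  have : Fact p.Prime := ⟨hp⟩
  have : NeZero p := ⟨hp.ne_zero⟩
  have : Fintype (Base p c) := Fintype.ofFinite _
  -- without twins
  have h1 : acop ((big p c).induce (baseSet hc)) ≤ c := by
    refine Nat.sInf_le (copsWin_active (isBlowUp_induce hc (baseSet hc) subset_rfl) ?_)
    intro a b hab
    have ha : a.1.2 = _ := a.2
    have hb : b.1.2 = _ := b.2
    exact Subtype.ext (Prod.ext hab (ha.trans hb.symm))
  -- with all twins
  have h2 : c + k ≤ acop ((big p c).induce
      (baseSet hc ∪ ((Finset.univ : Finset (Base p c × Fin (2 * c))) : Set _))) := by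
    have hb := isBlowUp_induce (p := p) hc (baseSet hc ∪ ((Finset.univ :
      Finset (Base p c × Fin (2 * c))) : Set _)) Set.subset_union_left
    by_contra hlt
    rw [not_le] at hlt
    refine not_copsWin_active hcp hb ?_ (k := acop ((big p c).induce
      (baseSet hc ∪ ((Finset.univ : Finset (Base p c × Fin (2 * c))) : Set _)))) (by omega) ?_
    · intro a
      refine ⟨fun i => ⟨(a, i), Or.inr (by simp)⟩, ?_, fun i => rfl⟩
      intro i j hij
      have := congrArg (fun v => v.1.2) hij
      exact this
    · have : Fintype ↑(baseSet hc ∪ ((Finset.univ : Finset (Base p c × Fin (2 * c))) :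
        Set (Base p c × Fin (2 * c)))) := Fintype.ofFinite _
      exact Nat.sInf_mem (copsWin_nonempty _)
  obtain ⟨S, hS, hm⟩ := exists_acop_eq hc (c + k) (h1.trans (by omega)) Finset.univ h2
  have hb := isBlowUp_induce hc S hS
  exact ⟨S, Fintype.ofFinite _, (big p c).induce S, hb.connected hc, hb.colorable,
    hb.cop_eq hcp hc, hm⟩

end Pool.Agent.Results.MP_671a46_co.AllGaps
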